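import Mathlib

set_option autoImplicit false

namespace Pool.Agent.H.MP_0cd801_co

def out : Fin 13 → List (Fin 13) :=
  ![[1, 2, 5], [2, 3, 7], [3, 4, 8], [4, 7, 9], [1, 7, 12], [8, 10, 11], [0, 5, 10], [2, 9, 12],
    [0, 4, 11], [5, 6, 11], [1, 3, 9], [6, 10, 12], [0, 6, 8]]

def D : Digraph (Fin 13) := ⟨fun u v => v ∈ out u⟩

instance : DecidableRel D.Adj := fun u v => inferInstanceAs (Decidable (v ∈ out u))

def go : ℕ → Fin 13 → List (Fin 13) → Bool
  | 0, v, _ => (out v).contains 0
  | k + 1, v, vis => (out v).any fun w => !vis.contains w && go k w (w :: vis)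

lemma go_false : go 12 0 [0] = false := by decide +kernel

lemma go_sound (g : ℕ → Fin 13) (hi : ∀ s t, s ≤ 12 → t ≤ 12 → g s = g t → s = t)
    (ha : ∀ s, s < 12 → g (s + 1) ∈ out (g s)) (hl : 0 ∈ out (g 12)) :
    ∀ k j (vis : List (Fin 13)), k + j = 12 → (∀ x ∈ vis, ∃ s, s ≤ j ∧ x = g s) →
      go k (g j) vis = true
  | 0, j, vis, h, _ => by
    obtain rfl : j = 12 := by omega
    simpa [go] using hl
  | k + 1, j, vis, h, hv => by
    rw [go, List.any_eq_true]
    refine ⟨g (j + 1), ha j (by omega), ?_⟩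
    rw [go_sound g hi ha hl k (j + 1) _ (by omega)]
    · simp only [Bool.and_true, Bool.not_eq_true', List.contains_eq_mem, decide_eq_false_iff_not]
      intro hm
      obtain ⟨s, h1, h2⟩ := hv _ hm
      have := hi _ _ (by omega) (by omega) h2
      omega
    · intro x hx
      rcases List.mem_cons.1 hx with rfl | hx
      · exact ⟨j + 1, le_rfl, rfl⟩
      · obtain ⟨s, h1, h2⟩ := hv _ hx
        exact ⟨s, by omega, h2⟩

lemma no_ham : ¬ ∃ f : Fin 13 → Fin 13, Function.Bijective f ∧
    ∀ i j : Fin 13, j.val = (i.val + 1) % 13 → D.Adj (f i) (f j) := by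
  rintro ⟨f, hf, ha⟩
  obtain ⟨i0, h0⟩ := hf.2 0
  let g : ℕ → Fin 13 := fun s => f ⟨(i0.val + s) % 13, Nat.mod_lt _ (by norm_num)⟩
  have hg0 : g 0 = 0 := by
    rw [← h0]
    simp only [g]
    congr 1
    ext
    simp
  have key := go_sound g (fun s t hs ht h => by
      have := congrArg Fin.val (hf.1 h)
      simp only at this
      omega)
    (fun s _ => ha _ _ (by simp only; omega))
    (by
      have := ha ⟨(i0.val + 12) % 13, Nat.mod_lt _ (by norm_num)⟩ i0 (by
        have := i0.2
        simp only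
        omega)
      rw [h0] at this
      exact this) 12 0 [0] rfl (fun x hx => ⟨0, le_rfl, by rw [hg0]; simpa using hx⟩)
  rw [hg0, go_false] at key
  exact absurd key (by decide)

lemma ori : ∀ u v : Fin 13, D.Adj u v → ¬ D.Adj v u := by decide +kernel

lemma ncard_eq (p : Fin 13 → Prop) [DecidablePred p] :
    Set.ncard {u | p u} = (Finset.univ.filter p).card := by
  rw [← Set.ncard_coe_finset]
  congr 1
  ext u
  simp

lemma outdeg (v : Fin 13) : Set.ncard {u : Fin 13 | D.Adj v u} = 3 := by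
  rw [ncard_eq]
  revert v
  decide +kernel

lemma indeg (v : Fin 13) : Set.ncard {u : Fin 13 | D.Adj u v} = 3 := by
  rw [ncard_eq]
  revert v
  decide +kernel

end Pool.Agent.H.MP_0cd801_co
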